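import Mathlib

open PowerSeries
namespace Pool.Agent.Rkz

variable {S : Type*} [CommRing S] {p : S} {Z : Subring S} {B : Type*} [CommRing B]

/-- `Z` is closed for the `p`-adic topology of the ambient ring -/
def Closed (p : S) (Z : Subring S) : Prop :=
  ∀ x : S, (∀ n : ℕ, ∃ z ∈ Z, p ^ n ∣ x - z) → x ∈ Z

theorem cancel_dvd (hreg : ∀ x, p * x = 0 → x = 0) {n : ℕ} {x : S} (h : p ^ (n + 1) ∣ p * x) :
    p ^ n ∣ x := by
  obtain ⟨c, hc⟩ := h
  refine ⟨c, sub_eq_zero.1 (hreg _ ?_)⟩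
  rw [mul_sub, hc]; ring

theorem pow_dvd_iff (φ : Z ≃+* B⟦X⟧) {q : Z} (hq : φ q = X) (m : ℕ) (x : Z) :
    X ^ m ∣ φ x ↔ q ^ m ∣ x := by
  rw [← hq, ← map_pow]
  exact map_dvd_iff φ

theorem cc_iff (φ : Z ≃+* B⟦X⟧) {q : Z} (hq : φ q = X) (x : Z) :
    constantCoeff (φ x) = 0 ↔ q ∣ x := by
  have h := pow_dvd_iff φ hq 1 x
  rw [pow_one, pow_one] at h
  rw [← h, X_dvd_iff]

theorem coset_closed (hreg : ∀ x, p * x = 0 → x = 0) (hZ : Closed p Z) (g : Z →+* B) {q : Z}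
    (hqp : (q : S) = p) (hg : ∀ x, g x = 0 ↔ q ∣ x) (x : Z) (b : B) (hx : g x ≠ b) :
    ∃ n : ℕ, ∀ z : Z, p ^ n ∣ (z : S) - x → g z ≠ b := by
  by_contra hcon
  push Not at hcon
  choose z hz hzb using hcon
  have hy : ∀ n, ∃ y : Z, z n - z 0 = q * y := fun n =>
    (hg _).1 (by rw [map_sub, hzb, hzb, sub_self])
  choose y hy using hy
  have hy' : ∀ n, (z n : S) - z 0 = p * y n := fun n => by
    have := congrArg (fun t : Z => (t : S)) (hy n)
    simpa [hqp] using this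
  obtain ⟨w, hw⟩ := hz 1
  rw [pow_one] at hw
  have hu : (x : S) - z 0 = p * (y 1 - w) := by
    rw [mul_sub, ← hy' 1, ← hw]; ring
  have huZ : (y 1 : S) - w ∈ Z := by
    refine hZ _ fun n => ⟨y (n + 1), (y (n + 1)).2, cancel_dvd hreg ?_⟩
    rw [mul_sub, ← hu, ← hy' (n + 1)]
    have : (x : S) - z 0 - (z (n + 1) - z 0) = -((z (n + 1) : S) - x) := by ring
    rw [this]
    exact (hz (n + 1)).neg_right
  have : g (x - z 0) = 0 := by
    refine (hg _).2 ⟨⟨_, huZ⟩, Subtype.ext ?_⟩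
    simpa [hqp] using hu
  rw [map_sub, hzb, sub_eq_zero] at this
  exact hx this

/-- the Baire category step -/
theorem open_of_closed [Countable B] (hreg : ∀ x, p * x = 0 → x = 0)
    (hcpl : ∀ s : ℕ → S, (∀ n, p ^ n ∣ s (n + 1) - s n) → ∃ x, ∀ n, p ^ n ∣ x - s n)
    (hZ : Closed p Z) (g : Z →+* B) {q : Z} (hqp : (q : S) = p) (hg : ∀ x, g x = 0 ↔ q ∣ x) :
    ∃ n : ℕ, ∀ x : Z, p ^ n ∣ (x : S) → g x = 0 := by
  by_contra hcon
  push Not at hcon
  have step : ∀ (b : B) (s : Z × ℕ), ∃ t : Z × ℕ, s.2 < t.2 ∧ p ^ s.2 ∣ (t.1 : S) - s.1 ∧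
      ∀ z : Z, p ^ t.2 ∣ (z : S) - t.1 → g z ≠ b := by
    intro b s
    have h1 : ∃ t : Z, p ^ s.2 ∣ (t : S) - s.1 ∧ g t ≠ b := by
      by_cases h : g s.1 = b
      · obtain ⟨x, hx, hx0⟩ := hcon s.2
        refine ⟨s.1 + x, by simpa using hx, ?_⟩
        rw [map_add, h]
        intro h2
        exact hx0 (by simpa using h2)
      · exact ⟨s.1, by simp, h⟩
    obtain ⟨t, ht, htb⟩ := h1
    obtain ⟨n, hn⟩ := coset_closed hreg hZ g hqp hg t b htb
    refine ⟨(t, max n (s.2 + 1)), lt_of_lt_of_le (Nat.lt_succ_self _) (le_max_right _ _), ht,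
      fun z hz => hn z ((pow_dvd_pow p (le_max_left _ _)).trans hz)⟩
  choose nx hlt hdv hne using step
  obtain ⟨e, he⟩ := exists_surjective_nat B
  let s : ℕ → Z × ℕ := fun i => Nat.rec (0, 0) (fun i t => nx (e i) t) i
  have hs : ∀ i, s (i + 1) = nx (e i) (s i) := fun i => rfl
  have hmono : StrictMono fun i => (s i).2 := strictMono_nat_of_lt_succ fun i => by
    rw [hs]; exact hlt _ _
  have hstep : ∀ i, p ^ (s i).2 ∣ ((s (i + 1)).1 : S) - (s i).1 := fun i => by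
    rw [hs]; exact hdv _ _
  have hfar : ∀ i j, i ≤ j → p ^ (s i).2 ∣ ((s j).1 : S) - (s i).1 := by
    intro i j hij
    induction j, hij using Nat.le_induction with
    | base => simp
    | succ j hij ih =>
      have : ((s (j + 1)).1 : S) - (s i).1 =
        (((s (j + 1)).1 : S) - (s j).1) + (((s j).1 : S) - (s i).1) := by ring
      rw [this]
      exact ((pow_dvd_pow p (hmono.monotone hij)).trans (hstep j)).add ih
  obtain ⟨x, hx⟩ := hcpl (fun i => ((s i).1 : S)) fun i =>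
    (pow_dvd_pow p (hmono.id_le i)).trans (hstep i)
  have hxZ : x ∈ Z := hZ x fun n => ⟨(s n).1, (s n).1.2, hx n⟩
  obtain ⟨i, hi⟩ := he (g ⟨x, hxZ⟩)
  have hxi : p ^ (s (i + 1)).2 ∣ x - (s (i + 1)).1 := by
    have : x - (s (i + 1)).1 = (x - (s (s (i + 1)).2).1) +
      (((s (s (i + 1)).2).1 : S) - (s (i + 1)).1) := by ring
    rw [this]
    exact (hx _).add (hfar _ _ (hmono.id_le (i + 1)))
  rw [hs] at hxi
  exact hne (e i) (s i) ⟨x, hxZ⟩ hxi hi.symm

theorem reduced_coeff [IsReduced S] (φ : Z ≃+* B⟦X⟧) : IsReduced B := by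
  refine isReduced_of_injective (Z.subtype.comp ((φ.symm : B⟦X⟧ →+* Z).comp C)) ?_
  exact Subtype.val_injective.comp (φ.symm.injective.comp C_injective)

theorem sat_of_open [IsReduced B] (g : Z →+* B) {q : Z} (hg : ∀ x, g x = 0 ↔ q ∣ x) {n : ℕ}
    (hn : ∀ x : Z, p ^ n ∣ (x : S) → g x = 0) (x : Z) (hx : p ∣ (x : S)) : q ∣ x := by
  have h := hn (x ^ n) (by simpa using pow_dvd_pow_of_dvd hx n)
  rw [map_pow] at h
  exact (hg x).1 (IsNilpotent.eq_zero ⟨n, h⟩)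

theorem sat_pow (hreg : ∀ x, p * x = 0 → x = 0) {q : Z} (hqp : (q : S) = p)
    (h : ∀ x : Z, p ∣ (x : S) → q ∣ x) (m : ℕ) (x : Z) (hx : p ^ m ∣ (x : S)) : q ^ m ∣ x := by
  induction m generalizing x with
  | zero => simp
  | succ m ih =>
    obtain ⟨y, rfl⟩ := h x ((dvd_pow_self p m.succ_ne_zero).trans hx)
    rw [pow_succ']
    refine mul_dvd_mul_left q (ih y (cancel_dvd hreg ?_))
    simpa [hqp] using hx

theorem closed_of_sat (hreg : ∀ x, p * x = 0 → x = 0) (hsep : ∀ x : S, (∀ n, p ^ n ∣ x) → x = 0)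
    (φ : Z ≃+* B⟦X⟧) {q : Z} (hqp : (q : S) = p) (hq : φ q = X)
    (h : ∀ x : Z, p ∣ (x : S) → q ∣ x) : Closed p Z := by
  intro x hx
  choose z hzZ hz using hx
  let w : ℕ → Z := fun n => ⟨z n, hzZ n⟩
  let f : B⟦X⟧ := PowerSeries.mk fun j => coeff j (φ (w (j + 1)))
  have hf : ∀ m, X ^ m ∣ f - φ (w m) := by
    intro m
    rw [X_pow_dvd_iff]
    intro j hj
    have h1 : p ^ (j + 1) ∣ ((w (j + 1) - w m : Z) : S) := by
      have : ((w (j + 1) - w m : Z) : S) = (x - z m) - (x - z (j + 1)) := by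
        simp [w]
      rw [this]
      exact ((pow_dvd_pow p hj).trans (hz m)).sub (hz (j + 1))
    have h2 := (pow_dvd_iff φ hq _ _).2 (sat_pow hreg hqp h _ _ h1)
    have h3 := X_pow_dvd_iff.1 h2 j (Nat.lt_succ_self j)
    rw [map_sub, map_sub] at h3
    rw [map_sub, coeff_mk]
    exact h3
  have hy : ∀ m, p ^ m ∣ ((φ.symm f : Z) : S) - z m := by
    intro m
    have h1 : q ^ m ∣ φ.symm f - w m := by
      rw [← pow_dvd_iff φ hq, map_sub, φ.apply_symm_apply]; exact hf m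
    have h2 := map_dvd Z.subtype h1
    simpa [hqp, w] using h2
  have : x - (φ.symm f : Z) = 0 := hsep _ fun m => by
    have : x - (φ.symm f : Z) = (x - z m) - (((φ.symm f : Z) : S) - z m) := by ring
    rw [this]
    exact (hz m).sub (hy m)
  rw [sub_eq_zero.1 this]
  exact (φ.symm f).2

end Pool.Agent.Rkz
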