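import Mathlib

open Finset
namespace Pool.Agent.Rkz

/-- the multiple harmonic sum over `M > n₁ > ... > n_r > 0` -/
def zeta : List ℕ+ → ℕ → ℚ
  | [], _ => 1
  | a :: k, M => ∑ n ∈ Ioo 0 M, zeta k n / (n : ℚ) ^ (a : ℕ)

theorem zeta_realize : True := by have := @zeta.eq_def; trivial

/-- the ring `∏_p ℤ/p^n` -/
def Prd (n : ℕ) : CommRingCat := CommRingCat.of (∀ p : {p : ℕ // p.Prime}, ZMod (p.1 ^ n))

/-- the ideal `⊕_p ℤ/p^n` of `∏_p ℤ/p^n` -/
def dsum (n : ℕ) : Ideal (Prd n) := Ideal.span {x | {p | x p ≠ 0}.Finite}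

theorem mem_dsum {n : ℕ} {x : Prd n} : x ∈ dsum n ↔ {p | x p ≠ 0}.Finite := by
  refine ⟨fun hx => ?_, fun hx => Ideal.subset_span hx⟩
  induction hx using Submodule.span_induction with
  | mem x hx => exact hx
  | zero => exact Set.finite_empty.subset fun p hp => hp rfl
  | add x y _ _ hx hy =>
    refine (hx.union hy).subset fun p hp => ?_
    by_contra h
    simp only [Set.mem_union, Set.mem_ofPred_eq, not_or, not_not] at h
    exact hp (by change x p + y p = 0; rw [h.1, h.2, add_zero])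
  | smul c x _ hx =>
    exact hx.subset fun p hp h => hp (by change c p * x p = 0; rw [h, mul_zero])

/-- the ring `𝒜_n` (the zero ring for `n = 0`) -/
def A (n : ℕ) : CommRingCat := CommRingCat.of (Prd n ⧸ dsum n)

/-- reduction `∏_p ℤ/p^(n+1) → ∏_p ℤ/p^n` -/
def low (n : ℕ) : Prd (n + 1) →+* Prd n :=
  RingHom.pi fun p : {p : ℕ // p.Prime} =>
    (ZMod.castHom (pow_dvd_pow p.1 n.le_succ) (ZMod (p.1 ^ n))).comp
      (Pi.evalRingHom (fun p : {p : ℕ // p.Prime} => ZMod (p.1 ^ (n + 1))) p)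

theorem low_le (n : ℕ) : dsum (n + 1) ≤ (dsum n).comap (low n) := fun x hx =>
  mem_dsum.2 ((mem_dsum.1 hx).subset fun p hp h => hp (by
    change ZMod.castHom (pow_dvd_pow p.1 n.le_succ) (ZMod (p.1 ^ n)) (x p) = 0
    rw [h, map_zero]))

/-- the transition map `𝒜_(n+1) → 𝒜_n` -/
def red (n : ℕ) : A (n + 1) →+* A n := Ideal.quotientMap (dsum n) (low n) (low_le n)

/-- the compatible sequences -/
def lim : Subring (∀ n, A n) :=
  ⨅ n, ((red n).comp (Pi.evalRingHom (fun n => A n) (n + 1))).eqLocus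
    (Pi.evalRingHom (fun n => A n) n)

theorem mem_lim {x : ∀ n, A n} : x ∈ lim ↔ ∀ n, red n (x (n + 1)) = x n := Subring.mem_iInf

/-- the inverse limit of the `𝒜_n` -/
def Ahat : CommRingCat := CommRingCat.of lim

/-- the projection from the inverse limit to `𝒜_n`; for `n = 1` it is `π` -/
def pr (n : ℕ) : Ahat →+* A n := (Pi.evalRingHom (fun n => A n) n).comp lim.subtype

/-- a rational number modulo `N` (it is `0` if the denominator is not invertible) -/
noncomputable def md (q : ℚ) (N : ℕ) : ZMod N := (q.num : ZMod N) * Ring.inverse (q.den : ZMod N)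

theorem md_low (q : ℚ) (p n : ℕ) :
    ZMod.castHom (pow_dvd_pow p n.le_succ) (ZMod (p ^ n)) (md q (p ^ (n + 1))) = md q (p ^ n) := by
  unfold md
  rw [map_mul, map_intCast]
  by_cases h : IsUnit (q.den : ZMod (p ^ (n + 1)))
  · have h' := h.map (ZMod.castHom (pow_dvd_pow p n.le_succ) (ZMod (p ^ n)))
    rw [map_natCast] at h'
    have h1 := congrArg (ZMod.castHom (pow_dvd_pow p n.le_succ) (ZMod (p ^ n)))
      (Ring.mul_inverse_cancel _ h)
    rw [map_mul, map_natCast, map_one] at h1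
    rw [h'.mul_left_cancel (h1.trans (Ring.mul_inverse_cancel _ h').symm)]
  · rw [Ring.inverse_non_unit _ h, map_zero]
    rcases n with _ | n
    · have : Subsingleton (ZMod (p ^ 0)) := by rw [pow_zero]; infer_instance
      exact Subsingleton.elim _ _
    · rw [Ring.inverse_non_unit]
      rw [ZMod.isUnit_iff_coprime, Nat.coprime_pow_right_iff (Nat.succ_pos _)] at h ⊢
      exact h

/-- the class of `(f p mod p^n)_p` in `𝒜_n` -/
noncomputable def clsA (n : ℕ) (f : ℕ → ℚ) : A n :=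
  Ideal.Quotient.mk (dsum n) fun p => md (f p.1) (p.1 ^ n)

theorem clsA_mem (f : ℕ → ℚ) : (fun n => clsA n f) ∈ lim :=
  mem_lim.2 fun n => congrArg (Ideal.Quotient.mk (dsum n)) (funext fun p => md_low (f p.1) p.1 n)

/-- the element `((f p mod p^n)_p)_n` of the inverse limit -/
noncomputable def cls (f : ℕ → ℚ) : Ahat := ⟨fun n => clsA n f, clsA_mem f⟩

/-- the element `𝒑` -/
noncomputable def bp : Ahat := cls fun p => p

/-- the ring generated by `ℚ`, `𝒑` and the completed finite multiple zeta values -/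
noncomputable def R : Subring Ahat :=
  Subring.closure ({bp} ∪ Set.range (fun q : ℚ => cls fun _ => q) ∪
    Set.range fun k => cls (zeta k))

/-- `x` lies in the closure of `R` for the `𝒑`-adic topology -/
def InCl (x : Ahat) : Prop := ∀ n : ℕ, ∃ r ∈ R, bp ^ n ∣ x - r

/-- the ring generated by `ℚ` and the finite multiple zeta values in `𝒜` -/
noncomputable def ZA : Subring (A 1) :=
  Subring.closure (Set.range (fun q : ℚ => clsA 1 fun _ => q) ∪
    Set.range fun k => clsA 1 (zeta k))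

/-- the closure of `R` as a subring -/
noncomputable def Zhat : Subring Ahat where
  carrier := {x | InCl x}
  mul_mem' := fun {x y} hx hy n => by
    obtain ⟨r, hr, c, hc⟩ := hx n
    obtain ⟨s, hs, d, hd⟩ := hy n
    exact ⟨r * s, R.mul_mem hr hs, c * y + r * d, by linear_combination y * hc + r * hd⟩
  one_mem' := fun n => ⟨1, R.one_mem, by simp⟩
  add_mem' := fun {x y} hx hy n => by
    obtain ⟨r, hr, c, hc⟩ := hx n
    obtain ⟨s, hs, d, hd⟩ := hy n
    exact ⟨r + s, R.add_mem hr hs, c + d, by linear_combination hc + hd⟩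
  zero_mem' := fun n => ⟨0, R.zero_mem, by simp⟩
  neg_mem' := fun {x} hx n => by
    obtain ⟨r, hr, c, hc⟩ := hx n
    exact ⟨-r, R.neg_mem hr, -c, by linear_combination -hc⟩

/-- `x` is a convergent sum `∑ a_i ζ(k_i) 𝒑^(e_i)` with `e_i → ∞` -/
def IsSum (x : Ahat) : Prop :=
  ∃ (a : ℕ → ℚ) (k : ℕ → List ℕ+) (e : ℕ → ℕ), (∀ n, ∃ M, ∀ i, M ≤ i → n ≤ e i) ∧
    ∀ n : ℕ, ∃ M, ∀ N, M ≤ N →
      bp ^ n ∣ x - ∑ i ∈ range N, (cls fun _ => a i) * cls (zeta (k i)) * bp ^ e i

/-- the real multiple zeta value, for an index that is empty or starts with an entry `≥ 2` -/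
noncomputable def mzv (k : List ℕ+) : ℝ := ⨆ M : ℕ, (zeta k M : ℝ)

/-- the algebra of multiple zeta values -/
noncomputable def Zreal : Subring ℝ :=
  Subring.closure (Set.range (fun q : ℚ => (q : ℝ)) ∪
    mzv '' {k | ∀ a l, k = a :: l → 2 ≤ (a : ℕ)})

/-- multiple zeta values modulo `ζ(2)` -/
abbrev Zbar : Type := Zreal ⧸ Ideal.span {x : Zreal | (x : ℝ) = mzv [2]}

end Pool.Agent.Rkz
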