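import Pool.Agent.P.MP_cb43af_nt.Rk.Defs

open Filter
namespace Pool.Agent.Rkz

/-- integer sequences modulo `p^n` -/
def intMod (n : ℕ) : ({p : ℕ // p.Prime} → ℤ) →+* Prd n :=
  RingHom.pi fun p : {p : ℕ // p.Prime} =>
    (Int.castRingHom (ZMod (p.1 ^ n))).comp (Pi.evalRingHom (fun _ => ℤ) p)

theorem intMod_apply (n : ℕ) (y : {p : ℕ // p.Prime} → ℤ) (p : {p : ℕ // p.Prime}) :
    intMod n y p = (y p : ZMod ((p : ℕ) ^ n)) := rfl

theorem low_intMod (n : ℕ) (y : {p : ℕ // p.Prime} → ℤ) : low n (intMod (n + 1) y) = intMod n y :=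
  funext fun p => by
    change ZMod.castHom (pow_dvd_pow (p : ℕ) n.le_succ) (ZMod ((p : ℕ) ^ n)) (y p : ℤ) = _
    rw [map_intCast]; rfl

theorem intMod_surj (n : ℕ) : Function.Surjective (intMod n) := fun x => by
  choose y hy using fun p : {p : ℕ // p.Prime} => ZMod.intCast_surjective (x p)
  exact ⟨y, funext hy⟩

/-- the class of an integer sequence in `𝒜_n` -/
def rhoA (n : ℕ) : ({p : ℕ // p.Prime} → ℤ) →+* A n := (Ideal.Quotient.mk (dsum n)).comp (intMod n)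

theorem rhoA_surj (n : ℕ) : Function.Surjective (rhoA n) :=
  Ideal.Quotient.mk_surjective.comp (intMod_surj n)

theorem red_rhoA (n : ℕ) (y : {p : ℕ // p.Prime} → ℤ) : red n (rhoA (n + 1) y) = rhoA n y :=
  congrArg (Ideal.Quotient.mk (dsum n)) (low_intMod n y)

theorem rhoA_eq_zero (n : ℕ) (y : {p : ℕ // p.Prime} → ℤ) :
    rhoA n y = 0 ↔ ∀ᶠ p : {p : ℕ // p.Prime} in cofinite, ((p : ℕ) : ℤ) ^ n ∣ y p := by
  refine (Ideal.Quotient.eq_zero_iff_mem.trans mem_dsum).trans ?_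
  rw [eventually_cofinite]
  have : ∀ p : {p : ℕ // p.Prime}, intMod n y p = 0 ↔ ((p : ℕ) : ℤ) ^ n ∣ y p := fun p => by
    rw [intMod_apply, ZMod.intCast_zmod_eq_zero_iff_dvd]; push_cast; rfl
  simp only [ne_eq, this]

/-- the class of an integer sequence in the inverse limit -/
def rho : ({p : ℕ // p.Prime} → ℤ) →+* Ahat :=
  (RingHom.pi rhoA).codRestrict lim fun y => mem_lim.2 fun n => red_rhoA n y

theorem rho_val (y : {p : ℕ // p.Prime} → ℤ) (n : ℕ) : pr n (rho y) = rhoA n y := rfl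

theorem hat_ext {x y : Ahat} (h : ∀ n, pr n x = pr n y) : x = y := Subtype.ext (funext h)

theorem red_pr (x : Ahat) (n : ℕ) : red n (pr (n + 1) x) = pr n x := mem_lim.1 x.2 n

theorem rho_surj : Function.Surjective rho := by
  classical
  intro x
  choose a ha using fun n => rhoA_surj n (pr n x)
  have hc : ∀ n, ∀ᶠ p : {p : ℕ // p.Prime} in cofinite, ((p : ℕ) : ℤ) ^ n ∣ a (n + 1) p - a n p := by
    intro n
    have := (rhoA_eq_zero n (a (n + 1) - a n)).1 (by
      rw [map_sub, ← red_rhoA n (a (n + 1)), ha, ha, red_pr, sub_self])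
    simpa using this
  let good : {p : ℕ // p.Prime} → ℕ → Prop := fun p n =>
    ∀ m < n, ((p : ℕ) : ℤ) ^ m ∣ a (m + 1) p - a m p
  let N : {p : ℕ // p.Prime} → ℕ := fun p => Nat.findGreatest (good p) p
  refine ⟨fun p => a (N p) p, hat_ext fun n => ?_⟩
  rw [rho_val, ← ha n, ← sub_eq_zero, ← map_sub, rhoA_eq_zero]
  have h1 : ∀ᶠ p : {p : ℕ // p.Prime} in cofinite, good p n :=
    ((Set.finite_lt_nat n).eventually_all.2 fun m _ => hc m).mono fun p hp m hm => hp m hm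
  have h2 : ∀ᶠ p : {p : ℕ // p.Prime} in cofinite, n ≤ (p : ℕ) := by
    rw [eventually_cofinite]
    refine ((Set.finite_lt_nat n).preimage
      (Subtype.val_injective.injOn)).subset fun p hp => ?_
    exact not_le.1 hp
  filter_upwards [h1, h2] with p hp1 hp2
  have hN : n ≤ N p := Nat.le_findGreatest hp2 hp1
  have hg : good p (N p) := Nat.findGreatest_spec (P := good p) hp2 hp1
  have key : ∀ j, n ≤ j → j ≤ N p → ((p : ℕ) : ℤ) ^ n ∣ a j p - a n p := by
    intro j hj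
    induction j, hj using Nat.le_induction with
    | base => simp
    | succ j hj ih =>
      intro hjN
      have : a (j + 1) p - a n p = (a (j + 1) p - a j p) + (a j p - a n p) := by ring
      rw [this]
      exact ((pow_dvd_pow _ hj).trans (hg j hjN)).add (ih (Nat.le_of_succ_le hjN))
  exact key _ hN le_rfl

theorem rho_eq_zero (y : {p : ℕ // p.Prime} → ℤ) :
    rho y = 0 ↔ ∀ n, ∀ᶠ p : {p : ℕ // p.Prime} in cofinite, ((p : ℕ) : ℤ) ^ n ∣ y p := by
  refine ⟨fun h n => (rhoA_eq_zero n y).1 ?_, fun h => hat_ext fun n => ?_⟩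
  · rw [← rho_val, h, map_zero]
  · rw [map_zero, rho_val]; exact (rhoA_eq_zero n y).2 (h n)

theorem bp_eq : bp = rho fun p => ((p : ℕ) : ℤ) :=
  hat_ext fun n => congrArg (Ideal.Quotient.mk (dsum n)) (funext fun p => by
    simp [md, intMod_apply])

/-- the kernel of the projection to `𝒜_n` is `𝒑^n` times the inverse limit -/
theorem pow_dvd_iff_val (n : ℕ) (x : Ahat) : bp ^ n ∣ x ↔ pr n x = 0 := by
  classical
  constructor
  · rintro ⟨c, rfl⟩
    have : pr n (bp ^ n) = 0 := by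
      rw [bp_eq, ← map_pow, rho_val, rhoA_eq_zero]
      exact Eventually.of_forall fun p => by simp
    rw [map_mul, this, zero_mul]
  · intro hx
    obtain ⟨y, rfl⟩ := rho_surj x
    rw [rho_val, rhoA_eq_zero] at hx
    refine ⟨rho fun p => y p / ((p : ℕ) : ℤ) ^ n, ?_⟩
    rw [bp_eq, ← map_pow, ← map_mul, ← sub_eq_zero, ← map_sub, rho_eq_zero]
    intro m
    filter_upwards [hx] with p hp
    simp [Int.mul_ediv_cancel' hp]

theorem bp_reg (x : Ahat) (h : bp * x = 0) : x = 0 := by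
  obtain ⟨y, rfl⟩ := rho_surj x
  rw [bp_eq, ← map_mul, rho_eq_zero] at h
  rw [rho_eq_zero]
  intro n
  filter_upwards [h (n + 1)] with p hp
  have hp0 : ((p : ℕ) : ℤ) ≠ 0 := by exact_mod_cast p.2.ne_zero
  rw [pow_succ'] at hp
  exact (mul_dvd_mul_iff_left hp0).1 hp

instance : IsReduced Ahat := ⟨fun x ⟨m, hm⟩ => by
  obtain ⟨y, rfl⟩ := rho_surj x
  rw [← map_pow, rho_eq_zero] at hm
  rw [rho_eq_zero]
  intro n
  rcases Nat.eq_zero_or_pos m with rfl | hm0
  · filter_upwards [hm 1] with p hp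
    have h1 : ((p : ℕ) : ℤ) ∣ 1 := by simpa using hp
    have h2 : (p : ℕ) ∣ 1 := by exact_mod_cast h1
    exact absurd (Nat.dvd_one.1 h2) p.2.ne_one
  · filter_upwards [hm (n * m)] with p hp
    rw [pow_mul] at hp
    exact (Int.pow_dvd_pow_iff hm0.ne').1 hp⟩

theorem bp_sep (x : Ahat) (h : ∀ n, bp ^ n ∣ x) : x = 0 :=
  hat_ext fun n => ((pow_dvd_iff_val n x).1 (h n)).trans (map_zero _).symm

theorem bp_cpl (s : ℕ → Ahat) (h : ∀ n, bp ^ n ∣ s (n + 1) - s n) :
    ∃ x, ∀ n, bp ^ n ∣ x - s n := by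
  refine ⟨⟨fun n => pr n (s n), mem_lim.2 fun n => ?_⟩,
    fun n => (pow_dvd_iff_val n _).2 ((map_sub _ _ _).trans (sub_self _))⟩
  have h1 := (pow_dvd_iff_val n _).1 (h n)
  rw [map_sub] at h1
  exact (red_pr _ n).trans (sub_eq_zero.1 h1)

theorem proj_eq_zero (x : Ahat) : pr 1 x = 0 ↔ bp ∣ x := by
  have := pow_dvd_iff_val 1 x
  rw [pow_one] at this
  exact this.symm

theorem proj_cls (f : ℕ → ℚ) : pr 1 (cls f) = clsA 1 f := rfl

theorem map_R : R.map (pr 1) = ZA := by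
  refine le_antisymm ?_ ?_
  · rw [R, RingHom.map_closure, Subring.closure_le]
    rintro _ ⟨x, (rfl | ⟨q, rfl⟩) | ⟨k, rfl⟩, rfl⟩
    · rw [(proj_eq_zero bp).2 dvd_rfl]; exact ZA.zero_mem
    · exact Subring.subset_closure (Or.inl ⟨q, rfl⟩)
    · exact Subring.subset_closure (Or.inr ⟨k, rfl⟩)
  · rw [ZA, Subring.closure_le]
    rintro _ (⟨q, rfl⟩ | ⟨k, rfl⟩)
    · exact ⟨_, Subring.subset_closure (Or.inl (Or.inr ⟨q, rfl⟩)), rfl⟩
    · exact ⟨_, Subring.subset_closure (Or.inr ⟨k, rfl⟩), rfl⟩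

theorem bp_mem : bp ∈ R := Subring.subset_closure (Or.inl (Or.inl rfl))

end Pool.Agent.Rkz
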