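import Pool.Agent.P.MP_cb43af_nt.Rk.Core
import Pool.Agent.P.MP_cb43af_nt.Rk.Hat

open PowerSeries
namespace Pool.Agent.Rkz

theorem closed_iff {Z : Subring Ahat} (hR : R ≤ Z) (hC : ∀ x ∈ Z, InCl x) :
    (∀ x, InCl x → x ∈ Z) ↔ Closed bp Z := by
  constructor
  · intro h x hx
    refine h x fun n => ?_
    obtain ⟨z, hz, hxz⟩ := hx n
    obtain ⟨r, hr, hzr⟩ := hC z hz n
    refine ⟨r, hr, ?_⟩
    have : x - r = (x - z) + (z - r) := by ring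
    rw [this]
    exact hxz.add hzr
  · intro h x hx
    exact h x fun n => (hx n).imp fun r hr => ⟨hR hr.1, hr.2⟩

theorem proj_mem {x : Ahat} (hx : InCl x) : pr 1 x ∈ ZA := by
  obtain ⟨r, hr, hxr⟩ := hx 1
  rw [pow_one, ← proj_eq_zero, map_sub, sub_eq_zero] at hxr
  rw [hxr, ← map_R]
  exact ⟨r, hr, rfl⟩

theorem sat_iff {Z : Subring Ahat} (hR : R ≤ Z) :
    (∀ x ∈ Z, pr 1 x = 0 → ∃ y ∈ Z, x = bp * y) ↔
      ∀ x : Z, bp ∣ (x : Ahat) → (⟨bp, hR bp_mem⟩ : Z) ∣ x := by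
  constructor
  · intro h x hx
    obtain ⟨y, hy, hxy⟩ := h x x.2 ((proj_eq_zero _).2 hx)
    exact ⟨⟨y, hy⟩, Subtype.ext hxy⟩
  · intro h x hx h0
    obtain ⟨y, hy⟩ := h ⟨x, hx⟩ ((proj_eq_zero _).1 h0)
    exact ⟨y, y.2, congrArg Subtype.val hy⟩

theorem tfae (Z : Subring Ahat) (hR : R ≤ Z) (hC : ∀ x ∈ Z, InCl x)
    (B : Type) [CommRing B] [Countable B] (φ : Z ≃+* B⟦X⟧)
    (hp : ∀ x : Z, (x : Ahat) = bp → φ x = X) :
    List.TFAE [∀ x, InCl x → x ∈ Z,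
      ∀ m : ℕ, ∃ n : ℕ, ∀ x : Z, bp ^ n ∣ (x : Ahat) → X ^ m ∣ φ x,
      ∀ x ∈ Z, pr 1 x = 0 → ∃ y ∈ Z, x = bp * y,
      ∃ ψ : ZA ≃+* B, ∀ (x : Z) (a : ZA), (a : A 1) = pr 1 x → ψ a = constantCoeff (φ x)] := by
  let q : Z := ⟨bp, hR bp_mem⟩
  have hqp : (q : Ahat) = bp := rfl
  have hq : φ q = X := hp q rfl
  let g : Z →+* B := (constantCoeff : B⟦X⟧ →+* B).comp (φ : Z →+* B⟦X⟧)
  have hg0 : ∀ x, g x = 0 ↔ q ∣ x := cc_iff φ hq
  have := reduced_coeff φ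
  tfae_have 1 → 3 := fun h => by
    obtain ⟨n, hn⟩ := open_of_closed bp_reg bp_cpl ((closed_iff hR hC).1 h) g hqp hg0
    exact (sat_iff hR).2 (sat_of_open g hg0 hn)
  tfae_have 2 → 3 := fun h => by
    obtain ⟨n, hn⟩ := h 1
    refine (sat_iff hR).2 (sat_of_open g hg0 (n := n) fun x hx => ?_)
    have := hn x hx
    rwa [pow_one, X_dvd_iff] at this
  tfae_have 3 → 1 := fun h =>
    (closed_iff hR hC).2 (closed_of_sat bp_reg bp_sep φ hqp hq ((sat_iff hR).1 h))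
  tfae_have 3 → 2 := fun h m =>
    ⟨m, fun x hx => (pow_dvd_iff φ hq m x).2 (sat_pow bp_reg hqp ((sat_iff hR).1 h) m x hx)⟩
  tfae_have 4 → 3 := fun ⟨ψ, hψ⟩ => by
    refine (sat_iff hR).2 fun x hx => (cc_iff φ hq x).1 ?_
    rw [← hψ x 0 ((proj_eq_zero _).2 hx).symm, map_zero]
  tfae_have 3 → 4 := fun h => by
    let f : Z →+* ZA := ((pr 1).comp Z.subtype).codRestrict ZA fun x => proj_mem (hC x x.2)
    have hf : Function.Surjective f := by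
      rintro ⟨a, ha⟩
      rw [← map_R] at ha
      obtain ⟨r, hr, rfl⟩ := ha
      exact ⟨⟨r, hR hr⟩, rfl⟩
    have hg : Function.Surjective g := fun b => ⟨φ.symm (C b), by simp [g]⟩
    have hker : RingHom.ker f = RingHom.ker g := by
      ext x
      rw [RingHom.mem_ker, RingHom.mem_ker, Subtype.ext_iff]
      change pr 1 x = 0 ↔ constantCoeff (φ x) = 0
      rw [cc_iff φ hq, proj_eq_zero]
      exact ⟨(sat_iff hR).1 h x, fun hx => map_dvd Z.subtype hx⟩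
    refine ⟨(RingHom.quotientKerEquivOfSurjective hf).symm.trans
      ((Ideal.quotEquivOfEq hker).trans (RingHom.quotientKerEquivOfSurjective hg)), ?_⟩
    intro x a ha
    have h1 : (RingHom.quotientKerEquivOfSurjective hf).symm a = Ideal.Quotient.mk _ x := by
      rw [RingEquiv.symm_apply_eq]
      exact Subtype.ext ha
    rw [RingEquiv.trans_apply, h1]
    rfl
  tfae_finish

theorem tfae_hom (B : Type) [CommRing B] [Countable B] (ι : B⟦X⟧ →+* Ahat)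
    (hι : Function.Injective ι) (hp : ι X = bp) (hR : R ≤ ι.range) (hC : ∀ f, InCl (ι f)) :
    List.TFAE [∀ x, InCl x → x ∈ ι.range,
      ∀ m : ℕ, ∃ n : ℕ, ∀ f, bp ^ n ∣ ι f → X ^ m ∣ f,
      ∀ f, pr 1 (ι f) = 0 → ∃ g, ι f = bp * ι g,
      ∃ ψ : B →+* A 1, Function.Injective ψ ∧ ψ.range = ZA ∧
        ∀ f, ψ (constantCoeff f) = pr 1 (ι f)] := by
  let e : B⟦X⟧ ≃+* ι.range := RingEquiv.ofBijective ι.rangeRestrict
    ⟨fun f g h => hι (congrArg Subtype.val h), ι.rangeRestrict_surjective⟩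
  have he : ∀ f, (e f : Ahat) = ι f := fun f => rfl
  have hC' : ∀ x ∈ ι.range, InCl x := by rintro _ ⟨f, rfl⟩; exact hC f
  have h := tfae ι.range hR hC' B e.symm fun x hx => by
    rw [RingEquiv.symm_apply_eq]; exact Subtype.ext (hx.trans hp.symm)
  have h3 : (∀ x ∈ ι.range, pr 1 x = 0 → ∃ y ∈ ι.range, x = bp * y) ↔
      ∀ f, pr 1 (ι f) = 0 → ∃ g, ι f = bp * ι g := by
    constructor
    · intro h f h0
      obtain ⟨_, ⟨g, rfl⟩, hg⟩ := h _ ⟨f, rfl⟩ h0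
      exact ⟨g, hg⟩
    · rintro h _ ⟨f, rfl⟩ h0
      obtain ⟨g, hg⟩ := h f h0
      exact ⟨_, ⟨g, rfl⟩, hg⟩
  tfae_have 1 ↔ 3 := (h.out 0 2).trans h3
  tfae_have 2 → 3 := fun h2 => h3.1 ((h.out 1 2).1 fun m => (h2 m).imp fun n hn x hx =>
    hn (e.symm x) (by rwa [← he, e.apply_symm_apply]))
  tfae_have 3 → 2 := fun h2 m => by
    have h4 : ∀ m : ℕ, ∃ n : ℕ, ∀ x : ι.range, bp ^ n ∣ (x : Ahat) → X ^ m ∣ e.symm x :=
      (h.out 2 1).1 (h3.2 h2)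
    refine (h4 m).imp fun n hn f hf => ?_
    have := hn (e f) hf
    rwa [e.symm_apply_apply] at this
  tfae_have 4 → 3 := fun ⟨ψ, hψ, _, h4⟩ f h0 => by
    have h5 : constantCoeff f = 0 := hψ (by rw [h4, h0, map_zero])
    obtain ⟨g, hg⟩ := X_dvd_iff.2 h5
    exact ⟨g, by rw [hg, map_mul, hp]⟩
  tfae_have 3 → 4 := fun h2 => by
    have h4 : ∃ ψ : ZA ≃+* B, ∀ (x : ι.range) (a : ZA), (a : A 1) = pr 1 x →
        ψ a = constantCoeff (e.symm x) := (h.out 2 3).1 (h3.2 h2)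
    obtain ⟨ψ, hψ⟩ := h4
    refine ⟨ZA.subtype.comp (ψ.symm : B →+* ZA), Subtype.val_injective.comp ψ.symm.injective,
      le_antisymm ?_ ?_, fun f => ?_⟩
    · rintro _ ⟨b, rfl⟩; exact (ψ.symm b).2
    · exact fun a ha => ⟨ψ ⟨a, ha⟩, congrArg Subtype.val (ψ.symm_apply_apply ⟨a, ha⟩)⟩
    · have h5 := hψ (e f) ⟨_, proj_mem (hC f)⟩ rfl
      rw [e.symm_apply_apply] at h5
      rw [← h5]
      exact congrArg Subtype.val (ψ.symm_apply_apply _)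
  tfae_finish

end Pool.Agent.Rkz
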