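import Pool.Agent.P.MP_cb43af_nt.Rk.Hat

open Finset Filter
namespace Pool.Agent.Rkz

/-- the span of the multiple harmonic sums, as functions of the bound -/
def Sp : Submodule ℚ (ℕ → ℚ) := Submodule.span ℚ (Set.range zeta)

/-- one more summation -/
def D (a : ℕ+) : (ℕ → ℚ) →ₗ[ℚ] (ℕ → ℚ) where
  toFun f M := ∑ n ∈ Ioo 0 M, f n / (n : ℚ) ^ (a : ℕ)
  map_add' f g := funext fun M => by simp [add_div, sum_add_distrib]
  map_smul' c f := funext fun M => by simp [mul_sum, mul_div_assoc]

theorem D_zeta (a : ℕ+) (k : List ℕ+) : D a (zeta k) = zeta (a :: k) := rfl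

theorem D_succ (a : ℕ+) (f : ℕ → ℚ) (M : ℕ) :
    D a f (M + 1) = D a f M + f M / (M : ℚ) ^ (a : ℕ) := by
  change ∑ n ∈ Ioo 0 (M + 1), _ = ∑ n ∈ Ioo 0 M, _ + _
  rcases M with _ | M
  · have : Ioo 0 (0 + 1) = (∅ : Finset ℕ) := by decide
    rw [this]; simp
  · have : Ioo 0 (M + 1 + 1) = insert (M + 1) (Ioo 0 (M + 1)) := by
      ext n; simp only [mem_Ioo, mem_insert]; omega
    rw [this, sum_insert (by simp), add_comm]

theorem D_zero (a : ℕ+) (f : ℕ → ℚ) : D a f 0 = 0 := by
  change ∑ n ∈ Ioo 0 0, f n / (n : ℚ) ^ (a : ℕ) = 0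
  simp

theorem D_mul (a b : ℕ+) (f g : ℕ → ℚ) :
    D a f * D b g = D a (f * D b g) + D b (D a f * g) + D (a + b) (f * g) := by
  funext M
  induction M with
  | zero => simp [D_zero]
  | succ M ih =>
    simp only [Pi.mul_apply, Pi.add_apply] at ih ⊢
    rw [D_succ, D_succ, D_succ, D_succ, D_succ]
    simp only [Pi.mul_apply, PNat.add_coe, pow_add]
    linear_combination (exp := 1) ih

theorem D_mem (a : ℕ+) {f : ℕ → ℚ} (hf : f ∈ Sp) : D a f ∈ Sp := by
  have : Sp ≤ Sp.comap (D a) := Submodule.span_le.2 (by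
    rintro _ ⟨k, rfl⟩
    exact Submodule.subset_span ⟨a :: k, rfl⟩)
  exact this hf

theorem stuffle (k l : List ℕ+) : zeta k * zeta l ∈ Sp := by
  induction k generalizing l with
  | nil =>
    have : zeta [] * zeta l = zeta l := funext fun M => one_mul _
    rw [this]; exact Submodule.subset_span ⟨l, rfl⟩
  | cons a k ihk =>
    induction l with
    | nil =>
      have : zeta (a :: k) * zeta [] = zeta (a :: k) := funext fun M => mul_one _
      rw [this]; exact Submodule.subset_span ⟨_, rfl⟩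
    | cons b l ihl =>
      rw [← D_zeta, ← D_zeta, D_mul]
      exact Sp.add_mem (Sp.add_mem (D_mem _ (ihk (b :: l))) (D_mem _ ihl)) (D_mem _ (ihk l))

theorem md_spec {q : ℚ} {N : ℕ} (h : q.den.Coprime N) {m d : ℤ} (hq : q * d = m) :
    md q N * d = m := by
  have hu : IsUnit (q.den : ZMod N) := (ZMod.isUnit_iff_coprime _ _).2 h
  have h1 : q.num * d = m * q.den := by
    have : (q.num : ℚ) * d = m * q.den := by
      rw [← hq, ← Rat.mul_den_eq_num q]; ring
    exact_mod_cast this
  have h2 : (q.num : ZMod N) * d = m * q.den := by exact_mod_cast congrArg (Int.cast : ℤ → ZMod N) h1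
  have h3 := Ring.mul_inverse_cancel _ hu
  unfold md
  linear_combination (Ring.inverse (q.den : ZMod N)) * h2 + m * h3

theorem md_den {q : ℚ} {N : ℕ} (h : q.den.Coprime N) : md q N * q.den = q.num := by
  have := md_spec h (m := q.num) (d := q.den) (by exact_mod_cast Rat.mul_den_eq_num q)
  exact_mod_cast this

theorem cop_add {q r : ℚ} {N : ℕ} (hq : q.den.Coprime N) (hr : r.den.Coprime N) :
    (q + r).den.Coprime N := (hq.mul_left hr).coprime_dvd_left (Rat.add_den_dvd q r)

theorem cop_mul {q r : ℚ} {N : ℕ} (hq : q.den.Coprime N) (hr : r.den.Coprime N) :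
    (q * r).den.Coprime N := (hq.mul_left hr).coprime_dvd_left (Rat.mul_den_dvd q r)

theorem md_add {q r : ℚ} {N : ℕ} (hq : q.den.Coprime N) (hr : r.den.Coprime N) :
    md (q + r) N = md q N + md r N := by
  have hu : IsUnit ((q.den : ZMod N) * r.den) :=
    ((ZMod.isUnit_iff_coprime _ _).2 hq).mul ((ZMod.isUnit_iff_coprime _ _).2 hr)
  have h := md_spec (cop_add hq hr) (m := q.num * r.den + r.num * q.den) (d := q.den * r.den) (by
    push_cast
    rw [← Rat.mul_den_eq_num q, ← Rat.mul_den_eq_num r]; ring)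
  push_cast at h
  refine hu.mul_right_cancel ?_
  linear_combination h - r.den * md_den hq - q.den * md_den hr

theorem md_mul {q r : ℚ} {N : ℕ} (hq : q.den.Coprime N) (hr : r.den.Coprime N) :
    md (q * r) N = md q N * md r N := by
  have hu : IsUnit ((q.den : ZMod N) * r.den) :=
    ((ZMod.isUnit_iff_coprime _ _).2 hq).mul ((ZMod.isUnit_iff_coprime _ _).2 hr)
  have h := md_spec (cop_mul hq hr) (m := q.num * r.num) (d := q.den * r.den) (by
    push_cast
    rw [← Rat.mul_den_eq_num q, ← Rat.mul_den_eq_num r]; ring)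
  push_cast at h
  refine hu.mul_right_cancel ?_
  linear_combination h - (md r N * r.den) * md_den hq - q.num * md_den hr

theorem cop_zeta {p : ℕ} (hp : p.Prime) (k : List ℕ+) (M : ℕ) (hM : M ≤ p) :
    (zeta k M).den.Coprime p := by
  induction k generalizing M with
  | nil => simp [zeta]
  | cons a k ih =>
    rw [zeta]
    refine sum_induction _ (fun q : ℚ => q.den.Coprime p) (fun _ _ => cop_add) (by simp) ?_
    intro n hn
    rw [mem_Ioo] at hn
    rw [div_eq_mul_inv]
    refine cop_mul (ih n (by omega)) ?_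
    have h1 : ((n : ℚ) ^ (a : ℕ))⁻¹ = ((n ^ (a : ℕ) : ℕ) : ℚ)⁻¹ := by push_cast; rfl
    rw [h1, Rat.inv_natCast_den_of_pos (pow_pos hn.1 _)]
    exact ((Nat.coprime_of_lt_prime hn.1.ne' (by omega) hp).symm).pow_left _

/-- almost all `f p` are `p`-integral -/
def Good (f : ℕ → ℚ) : Prop := ∀ᶠ p : {p : ℕ // p.Prime} in cofinite, (f p).den.Coprime p

theorem good_zeta (k : List ℕ+) : Good (zeta k) :=
  Eventually.of_forall fun p => cop_zeta p.2 k p le_rfl

theorem good_const (q : ℚ) : Good fun _ => q := by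
  rw [Good, eventually_cofinite]
  refine ((Set.finite_le_nat q.den).preimage
    (Subtype.val_injective.injOn)).subset fun p hp => ?_
  by_contra h
  exact hp (Nat.coprime_of_lt_prime q.den_nz (not_le.1 h) p.2).symm

theorem Good.add {f g : ℕ → ℚ} (hf : Good f) (hg : Good g) : Good (f + g) := by
  filter_upwards [hf, hg] with p h1 h2 using cop_add h1 h2

theorem Good.mul {f g : ℕ → ℚ} (hf : Good f) (hg : Good g) : Good (f * g) := by
  filter_upwards [hf, hg] with p h1 h2 using cop_mul h1 h2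

theorem mk_eq {n : ℕ} {x y : Prd n}
    (h : ∀ᶠ p in cofinite, x p = y p) :
    Ideal.Quotient.mk (dsum n) x = Ideal.Quotient.mk (dsum n) y :=
  Ideal.Quotient.eq.2 (mem_dsum.2
    ((eventually_cofinite.1 h).subset fun _ hp h' => hp (sub_eq_zero.2 h')))

theorem cls_add {f g : ℕ → ℚ} (hf : Good f) (hg : Good g) : cls (f + g) = cls f + cls g :=
  hat_ext fun n => by
    refine (mk_eq ?_).trans (map_add (Ideal.Quotient.mk (dsum n)) _ _)
    filter_upwards [hf, hg] with p h1 h2 using md_add (h1.pow_right n) (h2.pow_right n)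

theorem cls_mul {f g : ℕ → ℚ} (hf : Good f) (hg : Good g) : cls (f * g) = cls f * cls g :=
  hat_ext fun n => by
    refine (mk_eq ?_).trans (map_mul (Ideal.Quotient.mk (dsum n)) _ _)
    filter_upwards [hf, hg] with p h1 h2 using md_mul (h1.pow_right n) (h2.pow_right n)

theorem cls_int (m : ℤ) : (cls fun _ => (m : ℚ)) = m :=
  hat_ext fun n => by
    rw [map_intCast]
    refine (mk_eq (Eventually.of_forall fun p => ?_)).trans
      (map_intCast (Ideal.Quotient.mk (dsum n)) m)
    change md (m : ℚ) (p.1 ^ n) = (m : ZMod (p.1 ^ n))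
    simp [md]

theorem cls_const_mul (a b : ℚ) : (cls fun _ => a * b) = (cls fun _ => a) * cls fun _ => b :=
  cls_mul (good_const a) (good_const b)

end Pool.Agent.Rkz
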