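import Pool.Agent.P.MP_cb43af_nt.Rk.Stuf
import Pool.Agent.P.MP_cb43af_nt.Rk.Main

open Finset Filter
namespace Pool.Agent.Rkz

/-- a monomial `a ζ(k) 𝒑^e` -/
noncomputable def mono (a : ℚ) (k : List ℕ+) (e : ℕ) : Ahat :=
  (cls fun _ => a) * cls (zeta k) * bp ^ e

theorem mono_mem (a : ℚ) (k : List ℕ+) (e : ℕ) : mono a k e ∈ R :=
  R.mul_mem (R.mul_mem (Subring.subset_closure (Or.inl (Or.inr ⟨a, rfl⟩)))
    (Subring.subset_closure (Or.inr ⟨k, rfl⟩))) (R.pow_mem bp_mem e)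

theorem cls_zero : (cls fun _ => (0 : ℚ)) = 0 := by simpa using cls_int 0

theorem cls_one : (cls fun _ => (1 : ℚ)) = 1 := by simpa using cls_int 1

theorem cls_nil : cls (zeta []) = 1 := cls_one

/-- finite sums of monomials -/
noncomputable def Mo : AddSubmonoid Ahat := AddSubmonoid.closure {x | ∃ a k e, x = mono a k e}

theorem span_mem {f : ℕ → ℚ} (hf : f ∈ Sp) :
    Good f ∧ ∀ (a : ℚ) (e : ℕ), (cls fun _ => a) * cls f * bp ^ e ∈ Mo := by
  induction hf using Submodule.span_induction with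
  | mem f hf =>
    obtain ⟨k, rfl⟩ := hf
    exact ⟨good_zeta k, fun a e => AddSubmonoid.subset_closure ⟨a, k, e, rfl⟩⟩
  | zero =>
    refine ⟨good_const 0, fun a e => ?_⟩
    have : cls (0 : ℕ → ℚ) = 0 := cls_zero
    rw [this, mul_zero, zero_mul]; exact Mo.zero_mem
  | add f g _ _ hf hg =>
    refine ⟨hf.1.add hg.1, fun a e => ?_⟩
    rw [cls_add hf.1 hg.1, mul_add, add_mul]
    exact Mo.add_mem (hf.2 a e) (hg.2 a e)
  | smul c f _ hf =>
    have h : c • f = (fun _ => c) * f := rfl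
    refine ⟨h ▸ (good_const c).mul hf.1, fun a e => ?_⟩
    rw [h, cls_mul (good_const c) hf.1, ← mul_assoc, ← cls_const_mul]
    exact hf.2 _ e

theorem Mo_mul {x y : Ahat} (hx : x ∈ Mo) (hy : y ∈ Mo) : x * y ∈ Mo := by
  induction hx using AddSubmonoid.closure_induction with
  | zero => rw [zero_mul]; exact Mo.zero_mem
  | add x x' _ _ h h' => rw [add_mul]; exact Mo.add_mem h h'
  | mem x hx =>
    induction hy using AddSubmonoid.closure_induction with
    | zero => rw [mul_zero]; exact Mo.zero_mem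
    | add y y' _ _ h h' => rw [mul_add]; exact Mo.add_mem h h'
    | mem y hy =>
      obtain ⟨a, k, e, rfl⟩ := hx
      obtain ⟨b, l, d, rfl⟩ := hy
      have h := (span_mem (stuffle k l)).2 (a * b) (e + d)
      rw [cls_mul (good_zeta k) (good_zeta l), cls_const_mul, pow_add] at h
      have : mono a k e * mono b l d = (cls fun _ => a) * (cls fun _ => b) *
        (cls (zeta k) * cls (zeta l)) * (bp ^ e * bp ^ d) := by unfold mono; ring
      rw [this]; exact h

theorem mem_Mo {x : Ahat} (hx : x ∈ R) : x ∈ Mo := by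
  have h1 : ∀ a : ℚ, (cls fun _ => a) ∈ Mo := fun a =>
    AddSubmonoid.subset_closure ⟨a, [], 0, by simp [mono, cls_nil]⟩
  induction hx using Subring.closure_induction with
  | mem x hx =>
    rcases hx with (rfl | ⟨q, rfl⟩) | ⟨k, rfl⟩
    · exact AddSubmonoid.subset_closure ⟨1, [], 1, by simp [mono, cls_nil, cls_one]⟩
    · exact h1 q
    · exact AddSubmonoid.subset_closure ⟨1, k, 0, by simp [mono, cls_one]⟩
  | zero => exact Mo.zero_mem
  | one => exact cls_one ▸ h1 1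
  | add x y _ _ hx hy => exact Mo.add_mem hx hy
  | neg x _ hx =>
    have h2 : (cls fun _ => (-1 : ℚ)) = -1 := by simpa using cls_int (-1)
    have := Mo_mul (h1 (-1)) hx
    rw [h2] at this
    have h3 : -x = -1 * x := by ring
    exact h3 ▸ this
  | mul x y _ _ hx hy => exact Mo_mul hx hy

theorem exists_sum {x : Ahat} (hx : x ∈ Mo) :
    ∃ (n : ℕ) (t : ℕ → ℚ × List ℕ+ × ℕ), x = ∑ m ∈ range n, mono (t m).1 (t m).2.1 (t m).2.2 := by
  induction hx using AddSubmonoid.closure_induction with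
  | zero => exact ⟨0, fun _ => (0, [], 0), rfl⟩
  | mem x hx =>
    obtain ⟨a, k, e, rfl⟩ := hx
    exact ⟨1, fun _ => (a, k, e), by simp⟩
  | add x y _ _ hx hy =>
    obtain ⟨n, s, rfl⟩ := hx
    obtain ⟨m, t, rfl⟩ := hy
    refine ⟨n + m, fun i => if i < n then s i else t (i - n), ?_⟩
    rw [sum_range_add]
    refine congrArg₂ _ (sum_congr rfl fun i hi => ?_) (sum_congr rfl fun i _ => ?_)
    · simp only [if_pos (mem_range.1 hi)]
    · simp only [if_neg (show ¬ n + i < n by omega), Nat.add_sub_cancel_left]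

/-- limits of sequences in `R` that are Cauchy for the `𝒑`-adic topology of `R` itself -/
noncomputable def Zsum : Subring Ahat where
  carrier := {x | ∃ r : ℕ → Ahat, ∀ n, r n ∈ R ∧ bp ^ n ∣ x - r n ∧
    ∃ s ∈ R, r (n + 1) - r n = bp ^ n * s}
  mul_mem' := fun {x y} ⟨r, hr⟩ ⟨u, hu⟩ => ⟨fun n => r n * u n, fun n => by
    obtain ⟨h1, ⟨c, hc⟩, s, hs, h3⟩ := hr n
    obtain ⟨h4, ⟨d, hd⟩, v, hv, h6⟩ := hu n
    exact ⟨R.mul_mem h1 h4, ⟨c * y + r n * d, by linear_combination y * hc + r n * hd⟩,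
      s * u (n + 1) + r n * v, R.add_mem (R.mul_mem hs (hu (n + 1)).1) (R.mul_mem h1 hv),
      by linear_combination u (n + 1) * h3 + r n * h6⟩⟩
  one_mem' := ⟨fun _ => 1, fun n => ⟨R.one_mem, by simp, 0, R.zero_mem, by simp⟩⟩
  add_mem' := fun {x y} ⟨r, hr⟩ ⟨u, hu⟩ => ⟨fun n => r n + u n, fun n => by
    obtain ⟨h1, ⟨c, hc⟩, s, hs, h3⟩ := hr n
    obtain ⟨h4, ⟨d, hd⟩, v, hv, h6⟩ := hu n
    exact ⟨R.add_mem h1 h4, ⟨c + d, by linear_combination hc + hd⟩,
      s + v, R.add_mem hs hv, by linear_combination h3 + h6⟩⟩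
  zero_mem' := ⟨fun _ => 0, fun n => ⟨R.zero_mem, by simp, 0, R.zero_mem, by simp⟩⟩
  neg_mem' := fun {x} ⟨r, hr⟩ => ⟨fun n => -r n, fun n => by
    obtain ⟨h1, ⟨c, hc⟩, s, hs, h3⟩ := hr n
    exact ⟨R.neg_mem h1, ⟨-c, by linear_combination -hc⟩, -s, R.neg_mem hs,
      by linear_combination -h3⟩⟩

theorem R_le_Zsum : R ≤ Zsum := fun x hx =>
  ⟨fun _ => x, fun n => ⟨hx, by simp, 0, R.zero_mem, by simp⟩⟩

theorem inCl_of_Zsum (x : Ahat) (hx : x ∈ Zsum) : InCl x := fun n =>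
  let ⟨r, hr⟩ := hx; ⟨r n, (hr n).1, (hr n).2.1⟩

theorem dvd_mono (a : ℚ) (k : List ℕ+) {n e : ℕ} (h : n ≤ e) : bp ^ n ∣ mono a k e :=
  (pow_dvd_pow bp h).mul_left _

theorem mem_of_isSum {x : Ahat} (hx : IsSum x) : x ∈ Zsum := by
  classical
  obtain ⟨a, k, e, he', hx'⟩ := hx
  have he : Tendsto e atTop atTop := tendsto_atTop_atTop.2 he'
  have hx := fun n => eventually_atTop.2 (hx' n)
  have hfin : ∀ n, {i | e i < n}.Finite := fun n => by
    have h := he.eventually_ge_atTop n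
    rw [← Nat.cofinite_eq_atTop] at h
    exact (eventually_cofinite.1 h).subset fun i hi => not_le.2 hi
  refine ⟨fun n => ∑ i ∈ (hfin n).toFinset, mono (a i) (k i) (e i), fun n =>
    ⟨R.sum_mem fun i _ => mono_mem _ _ _, ?_, ?_⟩⟩
  · obtain ⟨b, hb⟩ := (hfin n).bddAbove
    obtain ⟨N, hN, hNb⟩ := ((hx n).and (eventually_gt_atTop b)).exists
    have hsub : (hfin n).toFinset ⊆ range N := fun i hi =>
      mem_range.2 ((hb ((hfin n).mem_toFinset.1 hi)).trans_lt hNb)
    have h1 : bp ^ n ∣ ∑ i ∈ range N \ (hfin n).toFinset, mono (a i) (k i) (e i) :=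
      dvd_sum fun i hi => dvd_mono _ _ (not_lt.1 fun h =>
        (mem_sdiff.1 hi).2 ((hfin n).mem_toFinset.2 h))
    have h2 := hN.add h1
    rw [sum_sdiff_eq_sub hsub] at h2
    have h3 : ∀ u v : Ahat, x - u + (u - v) = x - v := fun u v => by ring
    exact h3 _ _ ▸ h2
  · have hsub : (hfin n).toFinset ⊆ (hfin (n + 1)).toFinset := fun i hi =>
      (hfin _).mem_toFinset.2 (Nat.lt_succ_of_lt ((hfin n).mem_toFinset.1 hi))
    refine ⟨∑ i ∈ (hfin (n + 1)).toFinset \ (hfin n).toFinset, mono (a i) (k i) 0,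
      R.sum_mem fun i _ => mono_mem _ _ _, ?_⟩
    rw [← sum_sdiff_eq_sub hsub, mul_sum]
    refine sum_congr rfl fun i hi => ?_
    have h1 : e i < n + 1 := (hfin _).mem_toFinset.1 (mem_sdiff.1 hi).1
    have h2 : ¬ e i < n := fun h => (mem_sdiff.1 hi).2 ((hfin n).mem_toFinset.2 h)
    have h3 : e i = n := by omega
    rw [h3]; unfold mono; ring

theorem isSum_of_mem {x : Ahat} (hx : x ∈ Zsum) : IsSum x := by
  classical
  obtain ⟨r, hr⟩ := hx
  have hu : ∀ j, ∃ (n : ℕ) (t : ℕ → ℚ × List ℕ+ × ℕ), (∀ m, j ≤ (t m).2.2) ∧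
      r (j + 1) - (if j = 0 then 0 else r j) =
        ∑ m ∈ range n, mono (t m).1 (t m).2.1 (t m).2.2 := by
    intro j
    have : ∃ s ∈ R, r (j + 1) - (if j = 0 then 0 else r j) = bp ^ j * s := by
      split_ifs with h
      · exact ⟨r (j + 1), (hr _).1, by simp [h]⟩
      · exact (hr j).2.2
    obtain ⟨s, hs, h⟩ := this
    obtain ⟨n, t, ht⟩ := exists_sum (mem_Mo hs)
    refine ⟨n, fun m => ((t m).1, (t m).2.1, j + (t m).2.2), fun m => Nat.le_add_right _ _, ?_⟩
    rw [h, ht, mul_sum]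
    exact sum_congr rfl fun m _ => by unfold mono; ring
  choose len t hge ht using hu
  have hrs : ∀ n, r (n + 1) = ∑ j ∈ range (n + 1), ∑ m ∈ range (len j),
      mono (t j m).1 (t j m).2.1 (t j m).2.2 := by
    intro n
    induction n with
    | zero => rw [sum_range_one, ← ht 0]; simp
    | succ n ih => rw [sum_range_succ, ← ih, ← ht (n + 1)]; simp
  let F : ℕ → Finset ℕ := fun n =>
    ((range n).sigma fun j => range (len j)).image fun z => Nat.pair z.1 z.2
  let a : ℕ → ℚ := fun i =>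
    if i.unpair.2 < len i.unpair.1 then (t i.unpair.1 i.unpair.2).1 else 0
  let e : ℕ → ℕ := fun i =>
    if i.unpair.2 < len i.unpair.1 then (t i.unpair.1 i.unpair.2).2.2 else i
  have hout : ∀ n i, i ∉ F n → i.unpair.2 < len i.unpair.1 → n ≤ e i := by
    intro n i hi h
    have h1 : ¬ i.unpair.1 < n := fun h' => hi (mem_image.2
      ⟨⟨i.unpair.1, i.unpair.2⟩, mem_sigma.2 ⟨mem_range.2 h', mem_range.2 h⟩, Nat.pair_unpair i⟩)
    simp only [e, if_pos h]
    exact (not_lt.1 h1).trans (hge _ _)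
  refine ⟨a, fun i => (t i.unpair.1 i.unpair.2).2.1, e, fun n => eventually_atTop.1 ?_,
    fun n => eventually_atTop.1 ?_⟩
  · filter_upwards [eventually_gt_atTop ((F n).sup id), eventually_ge_atTop n] with i h1 h2
    by_cases h : i.unpair.2 < len i.unpair.1
    · exact hout n i (fun hi => absurd (le_sup (f := id) hi) (not_le.2 h1)) h
    · simpa only [e, if_neg h] using h2
  · filter_upwards [eventually_gt_atTop ((F (n + 1)).sup id)] with N hN
    have hsub : F (n + 1) ⊆ range N := fun i hi =>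
      mem_range.2 ((le_sup (f := id) hi).trans_lt hN)
    have h1 : ∑ i ∈ F (n + 1), mono (a i) (t i.unpair.1 i.unpair.2).2.1 (e i) = r (n + 1) := by
      rw [hrs, sum_sigma', sum_image]
      · refine sum_congr rfl fun z hz => ?_
        have := mem_range.1 (mem_sigma.1 hz).2
        simp only [a, e, Nat.unpair_pair, if_pos this]
      · rintro ⟨j, m⟩ _ ⟨j', m'⟩ _ h
        obtain ⟨rfl, rfl⟩ := Nat.pair_eq_pair.1 h
        rfl
    have h2 : bp ^ n ∣ ∑ i ∈ range N \ F (n + 1),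
        mono (a i) (t i.unpair.1 i.unpair.2).2.1 (e i) := by
      refine dvd_sum fun i hi => ?_
      by_cases h : i.unpair.2 < len i.unpair.1
      · exact dvd_mono _ _ ((Nat.le_succ n).trans (hout _ i (mem_sdiff.1 hi).2 h))
      · simp only [a, if_neg h, mono, cls_zero, zero_mul, dvd_zero]
    rw [sum_sdiff_eq_sub hsub, h1] at h2
    have h3 := ((pow_dvd_pow bp n.le_succ).trans (hr (n + 1)).2.1).sub h2
    have h4 : ∀ u v : Ahat, x - v - (u - v) = x - u := fun u v => by ring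
    exact h4 _ _ ▸ h3

theorem mem_Zsum (x : Ahat) : x ∈ Zsum ↔ IsSum x := ⟨isSum_of_mem, mem_of_isSum⟩

/-- Q1 for any ring between `R` and its closure gives Q1 for the closure -/
theorem sat_closure {Z : Subring Ahat} (hR : R ≤ Z) (hC : ∀ x ∈ Z, InCl x)
    (h : ∀ x ∈ Z, pr 1 x = 0 → ∃ y ∈ Z, x = bp * y) (x : Ahat) (hx : InCl x) (h0 : pr 1 x = 0) :
    ∃ y, InCl y ∧ x = bp * y := by
  obtain ⟨y, rfl⟩ := (proj_eq_zero x).1 h0
  refine ⟨y, fun n => ?_, rfl⟩
  obtain ⟨r, hr, hxr⟩ := hx (n + 1)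
  have h1 : bp ∣ r := by
    have := (dvd_mul_right bp y).sub ((dvd_pow_self bp n.succ_ne_zero).trans hxr)
    rwa [sub_sub_cancel] at this
  obtain ⟨s, hs, rfl⟩ := h r (hR hr) ((proj_eq_zero r).2 h1)
  obtain ⟨u, hu, hsu⟩ := hC s hs n
  rw [← mul_sub] at hxr
  have := (cancel_dvd bp_reg hxr).add hsu
  exact ⟨u, hu, by rwa [sub_add_sub_cancel] at this⟩

/-- Q1 for the closure makes every element of the closure a convergent sum -/
theorem sum_of_sat (h : ∀ x, InCl x → pr 1 x = 0 → ∃ y, InCl y ∧ x = bp * y) (x : Ahat)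
    (hx : InCl x) : x ∈ Zsum := by
  have step : ∀ z : Zhat, ∃ u ∈ R, ∃ y : Zhat, (z : Ahat) = u + bp * y := by
    intro z
    obtain ⟨u, hu, hzu⟩ := z.2 1
    rw [pow_one, ← proj_eq_zero] at hzu
    obtain ⟨y, hy, h1⟩ := h (z - u) (Zhat.sub_mem z.2 fun n => ⟨u, hu, by simp⟩) hzu
    exact ⟨u, hu, ⟨y, hy⟩, by rw [← h1]; ring⟩
  choose u hu g hg using step
  let z : ℕ → Zhat := fun n => g^[n] ⟨x, hx⟩
  have hz : ∀ n, x - ∑ j ∈ range n, bp ^ j * u (z j) = bp ^ n * z n := by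
    intro n
    induction n with
    | zero => simp [z]
    | succ n ih =>
      have h1 : z (n + 1) = g (z n) := Function.iterate_succ_apply' g n _
      rw [sum_range_succ, h1]
      linear_combination ih + bp ^ n * hg (z n)
  exact ⟨fun n => ∑ j ∈ range n, bp ^ j * u (z j), fun n =>
    ⟨R.sum_mem fun j _ => R.mul_mem (R.pow_mem bp_mem j) (hu _), ⟨_, hz n⟩, u (z n), hu _,
      by simp only [sum_range_succ]; ring⟩⟩

theorem countable_closure {s : Set ℝ} (hs : s.Countable) : Countable (Subring.closure s) := by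
  have := hs.to_subtype
  have h : Countable (Algebra.adjoin ℤ s) := by
    rw [← Cardinal.mk_le_aleph0_iff]
    exact (Algebra.cardinalMk_adjoin_le ℤ _).trans
      (sup_le (sup_le Cardinal.mk_le_aleph0 Cardinal.mk_le_aleph0) le_rfl)
  have h1 : (Subring.closure s : Set ℝ) ⊆ (Algebra.adjoin ℤ s).toSubring :=
    Subring.closure_le.2 Algebra.subset_adjoin
  exact ((Set.countable_coe_iff.1 h).mono h1).to_subtype

theorem countable_R : Countable R := by
  have h : (R : Set Ahat) ⊆ Set.range fun l : List (ℚ × List ℕ+ × ℕ) =>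
      (l.map fun t => mono t.1 t.2.1 t.2.2).sum := by
    intro x hx
    obtain ⟨n, t, rfl⟩ := exists_sum (mem_Mo hx)
    refine ⟨(List.range n).map t, ?_⟩
    simp only [List.map_map]
    rfl
  exact ((Set.countable_range _).mono h).to_subtype

theorem criterion_aux (q : Zhat) (hq : (q : Ahat) = bp) :
    (∀ x ∈ Zhat, pr 1 x = 0 → ∃ y ∈ Zhat, x = bp * y) ↔
      Countable (Zhat ⧸ Ideal.span {q}) ∧ IsReduced (Zhat ⧸ Ideal.span {q}) := by
  have hR : R ≤ Zhat := fun x hx n => ⟨x, hx, by simp⟩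
  have hqe : q = ⟨bp, hR bp_mem⟩ := Subtype.ext hq
  have hg : ∀ x : Zhat, Ideal.Quotient.mk (Ideal.span {q}) x = 0 ↔ q ∣ x := fun x => by
    rw [Ideal.Quotient.eq_zero_iff_mem, Ideal.mem_span_singleton]
  rw [sat_iff hR, ← hqe]
  constructor
  · intro h
    constructor
    · have := countable_R
      refine Function.Surjective.countable
        (f := fun r : R => Ideal.Quotient.mk (Ideal.span {q}) ⟨r, hR r.2⟩) fun b => ?_
      obtain ⟨x, rfl⟩ := Ideal.Quotient.mk_surjective b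
      obtain ⟨r, hr, hxr⟩ := x.2 1
      rw [pow_one] at hxr
      refine ⟨⟨r, hr⟩, (sub_eq_zero.1 ?_).symm⟩
      rw [← map_sub]
      exact (hg _).2 (h _ hxr)
    · refine ⟨fun b ⟨n, hn⟩ => ?_⟩
      obtain ⟨x, rfl⟩ := Ideal.Quotient.mk_surjective b
      rw [← map_pow, hg] at hn
      have h1 : bp ∣ (x : Ahat) ^ n := hq ▸ map_dvd Zhat.subtype hn
      refine (hg x).2 (h x ?_)
      obtain ⟨y, hy⟩ := rho_surj x
      rw [← proj_eq_zero, ← hy] at h1 ⊢
      rw [← map_pow] at h1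
      have h2 := (rhoA_eq_zero 1 _).1 h1
      refine (rhoA_eq_zero 1 _).2 (h2.mono fun p hp => ?_)
      rw [pow_one] at hp ⊢
      exact (Nat.prime_iff_prime_int.1 p.2).dvd_of_dvd_pow hp
  · rintro ⟨h1, h2⟩
    obtain ⟨n, hn⟩ := open_of_closed bp_reg bp_cpl
      ((closed_iff hR fun _ hx => hx).1 fun _ hx => hx) _ hq hg
    exact sat_of_open _ hg hn

end Pool.Agent.Rkz
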